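import Pool.Agent.U16.OR.Main

/-!
# Graph isomorphism is as hard for indistinguishable pairs as for all pairs

The known general methods for graph isomorphism come in levels `k`: the `k`-dimensional
Weisfeiler-Leman method, the `k`-dimensional invertible-map test over a field, and the search for
a proof of non-isomorphism of degree `k` in the polynomial calculus over a field or in the
Positivstellensatz calculus. It is shown that the pairs of graphs which they distinguish are of no
importance for the complexity of the problem:

1. There is a polynomial-time many-one reduction of graph isomorphism to graph isomorphism all of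
whose values are pairs of graphs, on the same number `N` of vertices, which none of these methods
distinguishes on any level `k` with `65536 k (log k + 1) ≤ N` (for fields of characteristic
different from `2`).

2. For each fixed level `k` there is such a reduction whose values are not distinguished by the
Weisfeiler-Leman method, by the invertible-map test over any field, by the polynomial calculus
over any field and by the Positivstellensatz calculus. (Over each field `2` or `3` is not zero.)

3. Let `R` be any reflexive and symmetric relation between graphs with the same number of vertices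
which is compatible with disjoint unions (`dsum`) and with joins (`djoin`); for example, having the
same value of invariants which are determined, for a disjoint union and for a complement, by
the values for the parts and for the graph. Then either related graphs are always isomorphic, or
graph isomorphism has a polynomial-time many-one reduction to itself all of whose values are pairs
of related graphs.

Proof. For `G`, `H` on `n` vertices and `X`, `Y` on `m` vertices let `U` be the disjoint union of
the joins `G * X` and `H * Y`, and `V` the disjoint union of `G * Y` and `H * X`. Then `U` and `V`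
are isomorphic if and only if `G`, `H` or `X`, `Y` are (components and complements, and
cancellation in disjoint unions). If `X`, `Y` are related then so are `U`, `V`, and local
isomorphisms between `X` and `Y` give local isomorphisms between `U` and `V`. For part 1 the pairs
`X`, `Y` are the Cai-Fürer-Immerman graphs over the cubic Cayley graphs of order `2 r 3 ^ r` of
the starting library (`CayleyGraphsWLDimension`), which are numbered explicitly here.
-/

set_option autoImplicit false

namespace Pool.Agent.Results.MP_f1a348_lc.IndistinguishablePairs

open Pool.Agent.NPC Pool.Agent.NPC.R671 Pool.Agent.Y815.GI Pool.Agent.TH658.Sos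
  Pool.Agent.W185.SRG Pool.Agent.U16.GI Pool.Agent.U16.OR

theorem result :
    (∃ f : List Bool → List Bool, PolyTime f ∧ ∀ x : List Bool, ∃ (N : ℕ)
      (U V : SimpleGraph (Fin N)), f x = bits (adjMatrix U, adjMatrix V) ∧
        (x ∈ lang GraphIso ↔ Nonempty (U ≃g V)) ∧
        ∀ k, 65536 * (k * (Nat.log 2 k + 1)) ≤ N →
          WLEquivalent k U V ∧ IMEquiv 2 k U V ∧
          (∀ (K : Type) [Field K], (2 : K) ≠ 0 → ¬ PCRefutes K U V k) ∧ ¬ PosRefutes U V k) ∧
    (∀ k : ℕ, ∃ f : List Bool → List Bool, PolyTime f ∧ ∀ x : List Bool, ∃ (N : ℕ)
      (U V : SimpleGraph (Fin N)), f x = bits (adjMatrix U, adjMatrix V) ∧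
        (x ∈ lang GraphIso ↔ Nonempty (U ≃g V)) ∧
          WLEquivalent k U V ∧ IMEquiv 2 k U V ∧ IMEquiv 3 k U V ∧
          (∀ (K : Type) [Field K], ¬ PCRefutes K U V k) ∧ ¬ PosRefutes U V k) ∧
    ∀ R : (n : ℕ) → SimpleGraph (Fin n) → SimpleGraph (Fin n) → Prop,
      (∀ n G, R n G G) → (∀ n G H, R n G H → R n H G) →
      (∀ n m (G G' : SimpleGraph (Fin n)) (X X' : SimpleGraph (Fin m)), R n G G' → R m X X' →
        R (n + m) (dsum G X) (dsum G' X')) →
      (∀ n m (G G' : SimpleGraph (Fin n)) (X X' : SimpleGraph (Fin m)), R n G G' → R m X X' →
        R (n + m) (djoin G X) (djoin G' X')) →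
      (∀ n G H, R n G H → Nonempty (G ≃g H)) ∨
      ∃ f : List Bool → List Bool, PolyTime f ∧ ∀ x : List Bool, ∃ (N : ℕ)
        (U V : SimpleGraph (Fin N)), f x = bits (adjMatrix U, adjMatrix V) ∧
          (x ∈ lang GraphIso ↔ Nonempty (U ≃g V)) ∧ R N U V := by
  refine ⟨?_, fun k => ?_, main3⟩
  · obtain ⟨f, hf, h⟩ := main1
    refine ⟨f, hf, fun x => ?_⟩
    obtain ⟨N, U, V, h1, h2, h3⟩ := h x
    exact ⟨N, U, V, h1, h2, fun k hk => ⟨(h3 k hk).wl, (h3 k hk).im,
      fun K _ hK => (h3 k hk).pc K (by exact_mod_cast hK), (h3 k hk).pos⟩⟩
  · obtain ⟨f, hf, h⟩ := main2 k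
    refine ⟨f, hf, fun x => ?_⟩
    obtain ⟨N, U, V, h1, h2, h3, h4⟩ := h x
    refine ⟨N, U, V, h1, h2, h3.wl, h3.im, h4.im, fun K _ => ?_, h3.pos⟩
    by_cases hK : (2 : K) = 0
    · refine h4.pc K ?_
      intro h5
      have h6 : (1 : K) = ((3 : ℕ) : K) - 2 := by push_cast; ring
      rw [h5, hK, sub_zero] at h6
      exact one_ne_zero h6
    · exact h3.pc K (by exact_mod_cast hK)

end Pool.Agent.Results.MP_f1a348_lc.IndistinguishablePairs
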